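import Pool.Agent.Q175.HM.Spl

/-!
# MP_68f289_gt: class functions additive on commuting pairs

`HamGroup n` is the group of the frozen statement S13311 (here for every `n ≥ 1`): the homeomorphisms
of `ℝ^{2n}` supported in a compact subset of the open unit ball which are uniform limits of time one
maps of smooth Hamiltonian flows supported in the same compact set. A class function on it, with values
in an abelian group, additive on commuting pairs (for example a homogeneous quasimorphism) lies in no
dilation invariant set of fewer than continuum many functions of this kind, unless it is zero.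
-/

set_option autoImplicit false

open Cardinal

namespace Pool.Agent.Results.MP_68f289_gt.ClassFunctionDichotomy

open Pool.Agent.Results.MP_68f289_gt.HomogeneousQuasimorphisms

/-- the set `X` of functions on the group is invariant under dilations: with `c` it contains the
function `φ ↦ c (φ^{(s)})` for every `0 < s < 1` -/
def DilationInvariant {n : ℕ} {B : Type} (X : Set (HamGroup n → B)) : Prop :=
  ∀ s : ℝ, 0 < s → s < 1 → ∀ c ∈ X, ∃ c' ∈ X, ∀ φ φ', IsDilate s φ φ' → c' φ = c φ'

/-- Let `n ≥ 1` and let `HamGroup n` be the group of compactly supported Hamiltonian homeomorphisms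
of the open unit ball of `ℝ^{2n}`. Let `A` be an abelian group.

(1) Let `X` be a set of fewer than continuum many class functions from the group to `A`, additive on
commuting pairs, and invariant under dilations. Then all elements of `X` are zero.

(2) Let `Y` be the set of all class functions from the group to `A` which are additive on commuting
pairs. Then `Y = {0}` or `Y` has at least continuum many elements.

(3) Let `c` be a class function from the group to `A`, additive on commuting pairs, such that the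
functions `φ ↦ c (φ^{(s)})`, `0 < s < 1`, are fewer than continuum many. Then `c = 0`. -/
theorem result (n : ℕ) (hn : 0 < n) (A : Type) [AddCommGroup A] :
    (∀ X : Set (HamGroup n → A),
      (∀ c ∈ X, IsCommutingAdditive c) → DilationInvariant X → Cardinal.mk X < 𝔠 →
      ∀ c ∈ X, c = 0) ∧
    ((∀ c : HamGroup n → A, IsCommutingAdditive c → c = 0) ∨
      𝔠 ≤ Cardinal.mk {c : HamGroup n → A | IsCommutingAdditive c}) ∧
    (∀ c : HamGroup n → A, IsCommutingAdditive c →
      Cardinal.mk {c' : HamGroup n → A | ∃ s : ℝ, 0 < s ∧ s < 1 ∧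
        ∀ φ φ', IsDilate s φ φ' → c' φ = c φ'} < 𝔠 → c = 0) := by
  have one : ∀ X : Set (HamGroup n → A),
      (∀ c ∈ X, IsCommutingAdditive c) → DilationInvariant X → Cardinal.mk X < 𝔠 →
      ∀ c ∈ X, c = 0 := by
    intro X hX hXd hXc c hc
    funext φ
    refine (Pool.Agent.Q175.HM.Spl.ds hn).small_class X hXc (fun c hc φ ψ => (hX c hc).conj φ ψ)
      (fun c hc φ ψ h => (hX c hc).comm φ ψ h) (fun s hs hs1 c hc => ?_) c hc φ
    obtain ⟨c', hc', h⟩ := hXd s hs hs1 c hc
    have e : (fun g => c ((Pool.Agent.Q175.HM.Spl.ds hn).d s g)) = c' := by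
      funext φ
      exact (h φ _ (Pool.Agent.Q175.HM.Spl.hd hn hs hs1.le φ)).symm
    rw [e]
    exact hc'
  have dil : ∀ c : HamGroup n → A, IsCommutingAdditive c → ∀ s : ℝ, 0 < s → s < 1 →
      IsCommutingAdditive (fun g => c ((Pool.Agent.Q175.HM.Spl.ds hn).d s g)) := by
    intro c hc s _ _
    refine ⟨fun φ ψ => ?_, fun φ ψ h => ?_⟩
    · rw [map_mul, map_mul, map_inv]
      exact hc.conj _ _
    · rw [map_mul]
      exact hc.comm _ _ (by rw [← map_mul, h, map_mul])
  have dil2 : ∀ c : HamGroup n → A, ∀ s : ℝ, 0 < s → s < 1 → ∀ φ φ', IsDilate s φ φ' →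
      (fun g => c ((Pool.Agent.Q175.HM.Spl.ds hn).d s g)) φ = c φ' := by
    intro c s hs hs1 φ φ' h
    change c ((Pool.Agent.Q175.HM.Spl.ds hn).d s φ) = c φ'
    rw [(Pool.Agent.Q175.HM.Spl.ds_iff hn hs hs1.le).1 h]
  refine ⟨one, ?_, fun c hc hcard => ?_⟩
  · rcases lt_or_ge (Cardinal.mk {c : HamGroup n → A | IsCommutingAdditive c}) 𝔠 with h | h
    · exact Or.inl fun c hc => one _ (fun c hc => hc)
        (fun s hs hs1 c hc => ⟨_, dil c hc s hs hs1, dil2 c s hs hs1⟩) h c hc
    · exact Or.inr h
  · have hlt : Cardinal.mk (insert c {c' : HamGroup n → A | ∃ s : ℝ, 0 < s ∧ s < 1 ∧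
        ∀ φ φ', IsDilate s φ φ' → c' φ = c φ'} : Set (HamGroup n → A)) < 𝔠 :=
      lt_of_le_of_lt (Cardinal.mk_insert_le) (Cardinal.add_lt_of_lt Cardinal.aleph0_le_continuum
        hcard (lt_of_lt_of_le Cardinal.one_lt_aleph0 Cardinal.aleph0_le_continuum))
    have hu : ∀ c' : HamGroup n → A, ∀ s : ℝ, 0 < s → s < 1 →
        (∀ φ φ', IsDilate s φ φ' → c' φ = c φ') →
        c' = fun g => c ((Pool.Agent.Q175.HM.Spl.ds hn).d s g) := by
      intro c' s hs hs1 h
      funext φ
      exact h φ _ (Pool.Agent.Q175.HM.Spl.hd hn hs hs1.le φ)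
    refine one _ ?_ ?_ hlt c (Set.mem_insert _ _)
    · rintro c' (rfl | ⟨s, hs, hs1, h⟩)
      · exact hc
      · rw [hu c' s hs hs1 h]
        exact dil c hc s hs hs1
    · intro t ht ht1 c' hc'
      rcases hc' with rfl | ⟨s, hs, hs1, h⟩
      · exact ⟨_, Or.inr ⟨t, ht, ht1, dil2 c' t ht ht1⟩, dil2 c' t ht ht1⟩
      · refine ⟨fun g => c ((Pool.Agent.Q175.HM.Spl.ds hn).d (s * t) g),
          Or.inr ⟨s * t, mul_pos hs ht, by nlinarith, dil2 c (s * t) (mul_pos hs ht) (by nlinarith)⟩,
          fun φ φ' hφ => ?_⟩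
        rw [hu c' s hs hs1 h]
        change c _ = c _
        rw [← (Pool.Agent.Q175.HM.Spl.ds_iff hn ht ht1.le).1 hφ,
          (Pool.Agent.Q175.HM.Spl.ds hn).mul s t hs hs1.le ht ht1.le]

end Pool.Agent.Results.MP_68f289_gt.ClassFunctionDichotomy
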