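import Pool.Agent.Q175.HM.Spl

/-!
# MP_68f289_gt: the homomorphisms of the group of Hamiltonian homeomorphisms of the ball

`HamGroup n` is the group of the frozen statement S13311 (here for every `n ≥ 1`): the homeomorphisms
of `ℝ^{2n}` supported in a compact subset of the open unit ball which are uniform limits of time one
maps of smooth Hamiltonian flows supported in the same compact set. We show that the set of its
homomorphisms to any fixed group is either trivial or of cardinality at least the continuum, and that
the vector space of its homomorphisms to any field is zero or of dimension at least the continuum.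
-/

set_option autoImplicit false

open Cardinal

namespace Pool.Agent.Results.MP_68f289_gt.HomomorphismDichotomy

open Pool.Agent.Results.MP_68f289_gt.HomogeneousQuasimorphisms

/-- the set `X` of homomorphisms from the group to `Q` is invariant under dilations: for every
`0 < s < 1` it contains with `w` the homomorphism `φ ↦ w (φ^{(s)})` -/
def DilationInvariant {n : ℕ} {Q : Type} [Group Q] (X : Set (HamGroup n →* Q)) : Prop :=
  ∀ s : ℝ, 0 < s → s < 1 → ∀ w ∈ X, ∃ w' ∈ X, ∀ φ φ', IsDilate s φ φ' → w' φ = w φ'

/-- Let `n ≥ 1` and let `HamGroup n` be the group of compactly supported Hamiltonian homeomorphisms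
of the open unit ball of `ℝ^{2n}`.

(1) Let `Q` be a group and `X` a set of fewer than continuum many homomorphisms from the group to
`Q`, invariant under dilations. Then all elements of `X` are trivial.

(2) For every group `Q` either all homomorphisms from the group to `Q` are trivial or there are at
least continuum many.

(3) Let `F` be a field. The vector space of homomorphisms from the group to `F` is zero or of
dimension at least the continuum. -/
theorem result (n : ℕ) (hn : 0 < n) :
    (∀ (Q : Type) [Group Q] (X : Set (HamGroup n →* Q)),
      DilationInvariant X → Cardinal.mk X < 𝔠 → ∀ w ∈ X, w = 1) ∧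
    (∀ (Q : Type) [Group Q],
      (∀ w : HamGroup n →* Q, w = 1) ∨ 𝔠 ≤ Cardinal.mk (HamGroup n →* Q)) ∧
    (∀ (F : Type) [Field F],
      (∀ w : Additive (HamGroup n) →+ F, w = 0) ∨
        𝔠 ≤ Module.rank F (Additive (HamGroup n) →+ F)) := by
  have key : ∀ (Q : Type) [Group Q] (X : Set (HamGroup n →* Q)),
      DilationInvariant X → Cardinal.mk X < 𝔠 → ∀ w ∈ X, w = 1 := by
    intro Q _ X hXd hXc w hw
    refine (Pool.Agent.Q175.HM.Spl.ds hn).small_hom X hXc (fun s hs hs1 f hf => ?_) w hw
    obtain ⟨c', hc', h⟩ := hXd s hs hs1 f hf
    have e : f.comp ((Pool.Agent.Q175.HM.Spl.ds hn).d s) = c' := by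
      ext φ
      exact (h φ _ (Pool.Agent.Q175.HM.Spl.hd hn hs hs1.le φ)).symm
    rw [e]
    exact hc'
  refine ⟨fun Q _ => key Q, fun Q _ => ?_, fun F _ => ?_⟩
  · rcases lt_or_ge (Cardinal.mk (HamGroup n →* Q)) 𝔠 with h | h
    · refine Or.inl fun w => ?_
      have h0 : Cardinal.mk (Set.univ : Set (HamGroup n →* Q)) < 𝔠 := by
        rw [Cardinal.mk_univ]
        exact h
      exact (Pool.Agent.Q175.HM.Spl.ds hn).small_hom Set.univ h0
        (fun _ _ _ _ _ => Set.mem_univ _) w (Set.mem_univ w)
    · exact Or.inr h
  · rcases lt_or_ge (Module.rank F (Additive (HamGroup n) →+ F)) 𝔠 with h | h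
    · exact Or.inl fun w => (Pool.Agent.Q175.HM.Spl.ds hn).field F h w
    · exact Or.inr h

end Pool.Agent.Results.MP_68f289_gt.HomomorphismDichotomy
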