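import Pool.Agent.Q175.HW.Cn
import Pool.Agent.Q175.HM.Spl

/-!
# MP_68f289_gt: subgroups of the group of Hamiltonian homeomorphisms of index less than the continuum

`H = HamGroup n` is the group of the frozen statement S13311 (here for every `n ≥ 1`): the
homeomorphisms of `ℝ^{2n}` supported in a compact subset of the open unit ball which are uniform limits
of time one maps of smooth Hamiltonian flows supported in the same compact set.

Theorem. A subgroup of `H` which is generated by countably many analytic sets, for example a verbal
subgroup (the words may contain constants), the normal closure of a countable set, or the subgroup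
generated by the elements supported in smaller balls (displaced in any way), is `H` or has exactly
continuum many cosets. So the abelianization of `H` is trivial or has continuum many elements, and `H`
is simple if and only if all quotients of `H` by nontrivial normal subgroups have fewer than continuum
many elements. Normal subgroups which are invariant under dilations (no definability is assumed) with
finitely generated quotient are the whole group.
-/

set_option autoImplicit false

open Cardinal

namespace Pool.Agent.Results.MP_68f289_gt.IndexDichotomy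

open Pool.Agent.Results.MP_68f289_gt.HomogeneousQuasimorphisms

/-- `T` is an analytic set of elements of the group: for some compact subset `K` of the open unit
ball the elements of `T` are uniform limits of Hamiltonian diffeomorphisms supported in `K`, and the
set of these maps is an analytic subset of the (Polish) space of continuous maps of `ℝ^{2n}` to itself
with the topology of uniform convergence on compact sets -/
def IsAnalytic {n : ℕ} (T : Set (HamGroup n)) : Prop :=
  (∃ K : Set (E n), IsCompact K ∧ K ⊆ ball n ∧ ∀ φ ∈ T, FixesOff K φ.1 ∧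
    ∃ u : ℕ → Homeo n, (∀ k, FixesOff K (u k)) ∧ (∀ k, IsTimeOneMap (u k)) ∧
      ConvergesTo u φ.1) ∧
  MeasureTheory.AnalyticSet {f : C(E n, E n) | ∃ φ ∈ T, ∀ x, f x = φ.map x}

/-- the subgroup `P` of `G` is `G` or has exactly continuum many cosets -/
def OneOrContinuum {G : Type} [Group G] (P : Subgroup G) : Prop := P = ⊤ ∨ #(G ⧸ P) = 𝔠

/-- The value at `x = (x_0, x_1, …)` of a word in constants from `G`, in variables `x_k` (the letters
`(k, true)`) and their inverses (the letters `(k, false)`). -/
def value {G : Type} [Group G] (w : List (G ⊕ (ℕ × Bool))) (x : ℕ → G) : G :=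
  (w.map fun a => match a with
    | Sum.inl g => g
    | Sum.inr (k, true) => x k
    | Sum.inr (k, false) => (x k)⁻¹).prod

/-- the subgroup generated by all values of the words in `W` -/
def verbal {G : Type} [Group G] (W : Set (List (G ⊕ (ℕ × Bool)))) : Subgroup G :=
  Subgroup.closure {y | ∃ w ∈ W, ∃ x : ℕ → G, y = value w x}

/-- the group `H(s)` of Hamiltonian homeomorphisms of the open ball of radius `s`: the conjugates
`φ^{(s)}` of the elements `φ` of the group by the dilation `x ↦ s x` -/
def inBall (n : ℕ) (s : ℝ) : Set (HamGroup n) := {φ' | ∃ φ, IsDilate s φ φ'}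

/-- the subgroup `N` is invariant under dilations: with `φ` it contains `φ^{(s)}` for `0 < s < 1` -/
def InvariantSubgroup {n : ℕ} (N : Subgroup (HamGroup n)) : Prop :=
  ∀ s : ℝ, 0 < s → s < 1 → ∀ φ φ', IsDilate s φ φ' → φ ∈ N → φ' ∈ N

/-- Let `n ≥ 1` and let `H` be the group of compactly supported Hamiltonian homeomorphisms of the open
unit ball of `ℝ^{2n}`.

(1) A subgroup generated by the union of countably many analytic sets is `H` or has exactly continuum
many cosets.

(2) The same for the subgroup generated by the values of countably many words with constants.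

(3) The same for the normal closure of `H(t)`, `0 < t < 1`, and for the normal closure of a countable
set.

(4) `H` is perfect or its abelianization has exactly continuum many elements.

(5) `H` is simple if and only if `H / N` has fewer than continuum many elements for all normal
subgroups `N ≠ 1`.

(6) Let `N` be a normal subgroup, invariant under dilations, with finitely generated quotient. Then
`N = H`.

(7) Let `N` be a normal subgroup, invariant under dilations, whose quotient is abelian, of finite
rank and with finitely many elements `x` with `x ^ m = 1` for each `m ≥ 1`. Then `N = H`. -/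
theorem result (n : ℕ) (hn : 0 < n) :
    (∀ T : ℕ → Set (HamGroup n), (∀ m, IsAnalytic (T m)) →
      OneOrContinuum (Subgroup.closure (⋃ m, T m))) ∧
    (∀ W : Set (List (HamGroup n ⊕ (ℕ × Bool))), W.Countable → OneOrContinuum (verbal W)) ∧
    (∀ t : ℝ, 0 < t → t < 1 → OneOrContinuum (Subgroup.normalClosure (inBall n t))) ∧
    (∀ C : Set (HamGroup n), C.Countable → OneOrContinuum (Subgroup.normalClosure C)) ∧
    (commutator (HamGroup n) = ⊤ ∨ #(Abelianization (HamGroup n)) = 𝔠) ∧
    (IsSimpleGroup (HamGroup n) ↔
      ∀ N : Subgroup (HamGroup n), N.Normal → N ≠ ⊥ → #(HamGroup n ⧸ N) < 𝔠) ∧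
    (∀ N : Subgroup (HamGroup n), N.Normal → InvariantSubgroup N →
      (∃ T : Finset (HamGroup n), N ⊔ Subgroup.closure (T : Set (HamGroup n)) = ⊤) → N = ⊤) ∧
    (∀ (N : Subgroup (HamGroup n)) [N.Normal], InvariantSubgroup N →
      (∀ φ ψ, φ * ψ * φ⁻¹ * ψ⁻¹ ∈ N) →
      (∃ T : Finset (HamGroup n), ∀ φ, ∃ m : ℕ, 0 < m ∧
        φ ^ m ∈ N ⊔ Subgroup.closure (T : Set (HamGroup n))) →
      (∀ m : ℕ, 0 < m → {x : HamGroup n ⧸ N | x ^ m = 1}.Finite) → N = ⊤) := by
  have hd : ∀ {s : ℝ}, 0 < s → s ≤ 1 → ∀ φ, IsDilate s φ ((Pool.Agent.Q175.HM.Spl.ds hn).d s φ) :=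
    fun hs hs1 φ => Pool.Agent.Q175.HM.Spl.hd hn hs hs1 φ
  have h := Pool.Agent.Q175.HW.st (n := n) hn
  rw [← closure_eq n] at h
  obtain ⟨h1, h2, h3, h4, h5, h6⟩ := h
  have e : ∀ T : Set (HamGroup n), IsAnalytic T →
      Pool.Agent.Q175.HW.AN (Subgroup.closure (hamBar n)) T := by
    intro T hT
    simp only [IsAnalytic, timeOne_iff] at hT
    exact hT
  refine ⟨fun T hT => h1 T fun m => e _ (hT m), h2, h3, h4, h5, h6,
    fun N hN hNd ⟨T, hT⟩ => ?_, fun N _ hNd hab ⟨T, hT⟩ hf => ?_⟩
  · exact (Pool.Agent.Q175.HM.Spl.ds hn).fg N
      (fun s hs hs1 g hg => hNd s hs hs1 g _ (hd hs hs1.le g) hg) T hT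
  · exact (Pool.Agent.Q175.HM.Spl.ds hn).rank N
      (fun s hs hs1 g hg => hNd s hs hs1 g _ (hd hs hs1.le g) hg) hab hf T hT

end Pool.Agent.Results.MP_68f289_gt.IndexDichotomy
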