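import Pool.Agent.Q175.HU.Mn4
import Pool.Agent.Results.MP_68f289_gt.HomogeneousQuasimorphisms

/-!
# MP_68f289_gt: simplicity is equivalent to uniform fragmentation

`H = HamGroup n` is the group of the frozen statement S13311 (here for every `n ≥ 1`): the
homeomorphisms of `ℝ^{2n}` supported in a compact subset of the open unit ball which are uniform limits
of time one maps of smooth Hamiltonian flows supported in the same compact set. `inBall n s` is the
group `H(s)` of Hamiltonian homeomorphisms of the open ball of radius `s`.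

Theorem. `H` is simple if and only if every element of `H` is a product of conjugates of elements of a
smaller ball, and there are `0 < t < s < 1` and `m` such that every element of `H(s)` is a product of
at most `m` conjugates of elements of `H(t)`. More forms of this equivalence are in the theorem. For
area preserving homeomorphisms of the disc a criterion of this kind is due to Le Roux.
-/

set_option autoImplicit false

namespace Pool.Agent.Results.MP_68f289_gt.UniformFragmentation

open Pool.Agent.Results.MP_68f289_gt.HomogeneousQuasimorphisms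

/-- the group `H(s)` of Hamiltonian homeomorphisms of the open ball of radius `s`: the conjugates
`φ^{(s)}` of the elements `φ` of the group by the dilation `x ↦ s x` -/
def inBall (n : ℕ) (s : ℝ) : Set (HamGroup n) := {φ' | ∃ φ, IsDilate s φ φ'}

/-- the elements of `H(r)` which move every point by less than `ε` (in the maximum distance) -/
def near (n : ℕ) (r ε : ℝ) : Set (HamGroup n) :=
  {φ | φ ∈ inBall n r ∧ ∀ x, dist (φ.map x) x < ε}

/-- products of at most `m` conjugates of elements of `D` -/
def conjProducts {G : Type} [Group G] (D : Set G) (m : ℕ) : Set G :=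
  {x | ∃ l : List G, l.length ≤ m ∧ (∀ y ∈ l, ∃ h, ∃ f ∈ D, y = h * f * h⁻¹) ∧ l.prod = x}

/-- products of at most `m` commutators -/
def commProducts {G : Type} [Group G] (m : ℕ) : Set G :=
  {x | ∃ l : List G, l.length ≤ m ∧ (∀ y ∈ l, ∃ a b, y = a * b * a⁻¹ * b⁻¹) ∧ l.prod = x}

/-- fragmentation: for some radius `t < 1` every element of the group is a product of conjugates of
elements of `H(t)` -/
def Fragmentation (n : ℕ) : Prop :=
  ∃ t : ℝ, 0 < t ∧ t < 1 ∧ ∀ φ : HamGroup n, ∃ m, φ ∈ conjProducts (inBall n t) m

/-- the group is perfect -/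
def IsPerfect (n : ℕ) : Prop := commutator (HamGroup n) = ⊤

/-- `ℓ` is a conjugation invariant length function -/
structure IsLength {G : Type} [Group G] (ℓ : G → ℝ) : Prop where
  nonneg : ∀ x, 0 ≤ ℓ x
  inv : ∀ x, ℓ x⁻¹ = ℓ x
  mul : ∀ x y, ℓ (x * y) ≤ ℓ x + ℓ y
  conj : ∀ x y, ℓ (y * x * y⁻¹) = ℓ x

/-- Let `n ≥ 1` and let `H` be the group of compactly supported Hamiltonian homeomorphisms of the open
unit ball of `ℝ^{2n}`.

(1) The following are equivalent.
(a) `H` is simple.
(b) Fragmentation holds and `H` is perfect.
(c) Fragmentation holds and for some `0 < s < 1` and `m` every element of `H(s)` is a product of at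
most `m` commutators in `H`.
(d) Fragmentation holds and for some `0 < t < s < 1` and `m` every element of `H(s)` is a product of
at most `m` conjugates (in `H`) of elements of `H(t)`.
(e) For every `r < 1` there is `ε > 0` such that for every `t < 1` there is `m` such that every
element of `H(r)` which is `ε`-close to the identity is a product of at most `m` conjugates of elements
of `H(t)`.
(f) For every `r < 1` there is `ε > 0` such that for every `g ≠ 1` in `H` there is `m` such that every
element of `H(r)` which is `ε`-close to the identity is a product of at most `m` conjugates of `g` and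
`g⁻¹`.
(g) Fragmentation holds and for some `0 < s < 1` every conjugation invariant length function on `H`
is bounded on `H(s)`.

(2) Fragmentation holds if and only if for all `t < 1` and `r < 1` there are `ε > 0` and `m` such that
every element of `H(r)` which is `ε`-close to the identity is a product of at most `m` conjugates of
elements of `H(t)`.

(3) `H` is perfect if and only if for every `r < 1` there are `ε > 0` and `m` such that every element
of `H(r)` which is `ε`-close to the identity is a product of at most `m` commutators. -/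
theorem result (n : ℕ) (hn : 0 < n) :
    [IsSimpleGroup (HamGroup n),
      Fragmentation n ∧ IsPerfect n,
      Fragmentation n ∧ ∃ s : ℝ, 0 < s ∧ s < 1 ∧ ∃ m : ℕ, inBall n s ⊆ commProducts m,
      Fragmentation n ∧ ∃ s t : ℝ, 0 < t ∧ t < s ∧ s < 1 ∧
        ∃ m : ℕ, inBall n s ⊆ conjProducts (inBall n t) m,
      ∀ r : ℝ, 0 < r → r < 1 → ∃ ε : ℝ, 0 < ε ∧ ∀ t : ℝ, 0 < t → t < 1 →
        ∃ m : ℕ, near n r ε ⊆ conjProducts (inBall n t) m,
      ∀ r : ℝ, 0 < r → r < 1 → ∃ ε : ℝ, 0 < ε ∧ ∀ g : HamGroup n, g ≠ 1 →
        ∃ m : ℕ, near n r ε ⊆ conjProducts {g, g⁻¹} m,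
      Fragmentation n ∧ ∃ s : ℝ, 0 < s ∧ s < 1 ∧
        ∀ ℓ : HamGroup n → ℝ, IsLength ℓ → ∃ C : ℝ, ∀ φ ∈ inBall n s, ℓ φ ≤ C].TFAE ∧
    (Fragmentation n ↔ ∀ t : ℝ, 0 < t → t < 1 → ∀ r : ℝ, 0 < r → r < 1 →
      ∃ ε : ℝ, 0 < ε ∧ ∃ m : ℕ, near n r ε ⊆ conjProducts (inBall n t) m) ∧
    (IsPerfect n ↔ ∀ r : ℝ, 0 < r → r < 1 →
      ∃ ε : ℝ, 0 < ε ∧ ∃ m : ℕ, near n r ε ⊆ commProducts m) := by
  have h := Pool.Agent.Q175.HU.stm (n := n) hn
  rw [← closure_eq n] at h
  have e : ∀ ℓ : HamGroup n → ℝ, IsLength ℓ ↔ Pool.Agent.Q175.HU.Len ℓ := fun ℓ =>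
    ⟨fun h => ⟨h.nonneg, h.inv, h.mul, h.conj⟩, fun h => ⟨h.nonneg, h.inv, h.mul, h.conj⟩⟩
  simp only [e]
  exact h

end Pool.Agent.Results.MP_68f289_gt.UniformFragmentation
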